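import Pool.Agent.Helper89.Vol4.Goals

/-! # MP_cd13d2_co, project V47, packet HAD: Hadamard's inequality in dimension four -/

set_option autoImplicit false

namespace Pool.Agent.Helper46.Vol4.PkHAD

open Pool.Agent.Helper89.Vol4

theorem thm : Pool.Agent.Helper89.Vol4.G_HAD := by
  intro u v w z hu hv hw hz
  haveI : Fact (Module.finrank ℝ (EuclideanSpace ℝ (Fin 4)) = 4) := ⟨by simp⟩
  have h := (EuclideanSpace.basisFun (Fin 4) ℝ).toBasis.orientation.abs_volumeForm_apply_le
    ![u, v, w, z]
  rw [Orientation.volumeForm_robust _ (EuclideanSpace.basisFun (Fin 4) ℝ) rfl] at h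
  have hdet : (EuclideanSpace.basisFun (Fin 4) ℝ).toBasis.det ![u, v, w, z] = dt u v w z := by
    rw [Module.Basis.det_apply]
    unfold dt
    rw [← Matrix.det_transpose]
    congr 1
    ext i j
    fin_cases i <;> fin_cases j <;> simp [Module.Basis.toMatrix_apply]
  rw [hdet] at h
  refine h.trans ?_
  refine Finset.prod_le_one (fun i _ => norm_nonneg _) (fun i _ => ?_)
  fin_cases i
  · exact hu
  · exact hv
  · exact hw
  · exact hz

end Pool.Agent.Helper46.Vol4.PkHAD
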