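import Pool.Agent.Helper89.Vol4.Goals2
import Pool.Agent.Helper26.Vol4.J47

/-! # MP_cd13d2_co, project V47: packet V47-J47E (the equality case of the planar inequality) -/

set_option autoImplicit false

namespace Pool.Agent.Helper46.Vol4.PkJ47E

open Set Pool.Agent.Helper89.Vol4 Pool.Agent.Helper26.Vol4.PkJ47

theorem strict {N g : ℝ} (hN : 0 ≤ N) (hN3 : N ≤ 29 / 100) (hg : 0 ≤ g) (hg1 : g < 1) :
    √(3 / 4 - N ^ 2) * g + N * √(3 - (g + 2 * N) ^ 2) < f4 N := by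
  have hM : 0 ≤ 3 / 4 - N ^ 2 := by nlinarith
  have hA : 0 ≤ 3 - (g + 2 * N) ^ 2 := by nlinarith
  set M := √(3 / 4 - N ^ 2) with hMd
  have hM0 : 0 ≤ M := Real.sqrt_nonneg _
  have hM2 : M ^ 2 = 3 / 4 - N ^ 2 := Real.sq_sqrt hM
  set a := √(3 - (g + 2 * N) ^ 2) with had
  have ha0 : 0 ≤ a := Real.sqrt_nonneg _
  have ha2 : a ^ 2 = 3 - (g + 2 * N) ^ 2 := Real.sq_sqrt hA
  have hB : 1 / 2 ≤ 3 - (1 + 2 * N) ^ 2 := by nlinarith
  have hf : f4 N = M + N * √(3 - (1 + 2 * N) ^ 2) := rfl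
  rw [hf]
  set b := √(3 - (1 + 2 * N) ^ 2) with hbd
  have hb2 : b ^ 2 = 3 - (1 + 2 * N) ^ 2 := Real.sq_sqrt (by linarith)
  have hb0 : 0 < b := Real.sqrt_pos.2 (by linarith)
  have hba : b ≤ a := Real.sqrt_le_sqrt (by nlinarith)
  have h1 : N * (1 + 2 * N) < M * b := by
    have hlt : (N * (1 + 2 * N)) ^ 2 < (M * b) ^ 2 := by
      have h2 : (M * b) ^ 2 = (3 / 4 - N ^ 2) * (3 - (1 + 2 * N) ^ 2) := by
        rw [mul_pow, hM2, hb2]
      rw [h2]
      have h3 : (N * (1 + 2 * N)) ^ 2 ≤ (29 / 100 * (1 + 2 * (29 / 100))) ^ 2 := by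
        gcongr
      have h4 : (3 / 4 - (29 / 100) ^ 2) * (3 - (1 + 2 * (29 / 100)) ^ 2) ≤
          (3 / 4 - N ^ 2) * (3 - (1 + 2 * N) ^ 2) := by
        have h5 : (3 / 4 - (29 / 100 : ℝ) ^ 2) ≤ 3 / 4 - N ^ 2 := by nlinarith
        have h6 : (3 - (1 + 2 * (29 / 100 : ℝ)) ^ 2) ≤ 3 - (1 + 2 * N) ^ 2 := by nlinarith
        exact mul_le_mul h5 h6 (by norm_num) hM
      have h5 : (29 / 100 * (1 + 2 * (29 / 100 : ℝ))) ^ 2 <
          (3 / 4 - (29 / 100 : ℝ) ^ 2) * (3 - (1 + 2 * (29 / 100)) ^ 2) := by norm_num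
      linarith
    exact lt_of_pow_lt_pow_left₀ 2 (by positivity) hlt
  have h2 : (a - b) * (2 * b) ≤ (1 - g) * (2 + 4 * N) := by
    have h3 : (a - b) * (a + b) = (1 - g) * (1 + g + 4 * N) := by
      linear_combination ha2 - hb2
    have h4 : (a - b) * (2 * b) ≤ (a - b) * (a + b) :=
      mul_le_mul_of_nonneg_left (by linarith) (by linarith)
    have h5 : (1 - g) * (1 + g + 4 * N) ≤ (1 - g) * (2 + 4 * N) :=
      mul_le_mul_of_nonneg_left (by linarith) (by linarith)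
    linarith
  have h3 : N * (a - b) * b < (1 - g) * M * b := by
    have h4 : N * ((a - b) * (2 * b)) ≤ N * ((1 - g) * (2 + 4 * N)) :=
      mul_le_mul_of_nonneg_left h2 hN
    have h5 : (1 - g) * (N * (1 + 2 * N)) < (1 - g) * (M * b) :=
      mul_lt_mul_of_pos_left h1 (by linarith)
    nlinarith
  have h4 := lt_of_mul_lt_mul_right h3 hb0.le
  linarith

theorem thm (hn : G_NUM4) (hu : G_UNI4) : G_J47E := by
  intro N₀ hN₀ hmax N k M g1 g2 S hN0 hN2 hk hM hg1 hg2 hS hkM hg hSS hval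
  have hbig : (1.04 : ℝ) < f4 N₀ := by
    have a := hn.2.1
    have b := hmax (224 / 1000) ⟨by norm_num, by norm_num⟩
    have c : (1.04 : ℝ) < 1.049448 := by norm_num
    linarith
  have hN1 : N ≤ 1 / 2 := by nlinarith
  have hg1' : g1 ≤ 1 := by nlinarith [sq_nonneg g2, sq_nonneg (g1 - 1)]
  have hMp : 0 ≤ 3 / 4 - N ^ 2 := by linarith
  by_cases hc : √(3 / 4 - N ^ 2) * g2 ≤ N * g1
  · have hA := caseA hN0 hN1 hk hg1 hkM hSS hc
    have hA' : 0 ≤ 3 - (g1 + 2 * N) ^ 2 := by nlinarith [sq_nonneg S, sq_nonneg g2]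
    have hB := caseA2 hN0 hN2 hg1 hg1' hA'
    have hN9 : N < 29 / 100 := by
      by_contra hcon
      have h1 := hB.2 (not_lt.mp hcon)
      have h2 : (1.03 : ℝ) < 1.04 := by norm_num
      linarith
    have hfN : f4 N ≤ f4 N₀ := hmax N ⟨hN0, by linarith⟩
    have hg11 : g1 = 1 := by
      by_contra hcon
      have hlt : g1 < 1 := lt_of_le_of_ne hg1' hcon
      have := strict hN0 hN9.le hg1 hlt
      linarith
    have hg20 : g2 = 0 := by
      have : g2 ^ 2 ≤ 0 := by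
        rw [hg11] at hg
        linarith
      exact pow_eq_zero_iff (two_ne_zero) |>.mp (le_antisymm this (sq_nonneg g2))
    subst hg11 hg20
    have hkN : 0 ≤ k * N := mul_nonneg hk hN0
    have hMle : M ≤ √(3 / 4 - N ^ 2) := by
      apply Real.le_sqrt_of_sq_le
      nlinarith [sq_nonneg k]
    have hSle : S ≤ √(3 - (1 + 2 * N) ^ 2) := by
      apply Real.le_sqrt_of_sq_le
      nlinarith
    have hfdef : f4 N = √(3 / 4 - N ^ 2) + N * √(3 - (1 + 2 * N) ^ 2) := rfl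
    have hNS : N * S ≤ N * √(3 - (1 + 2 * N) ^ 2) := mul_le_mul_of_nonneg_left hSle hN0
    have hfeq : f4 N = f4 N₀ := le_antisymm hfN (by rw [hfdef]; linarith)
    have hU := hu N₀ hN₀ hmax
    have hNN : N = N₀ := hU.1 N ⟨hN0, by linarith⟩ hfeq
    have hNpos : 0 < N := by
      rw [hNN]
      have := hU.2.2.1
      have h0 : (0 : ℝ) < 0.224 := by norm_num
      linarith
    have hMeq : M = √(3 / 4 - N ^ 2) := by
      apply le_antisymm hMle
      rw [← hfeq, hfdef] at hval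
      linarith
    have hSeq : S = √(3 - (1 + 2 * N) ^ 2) := by
      apply le_antisymm hSle
      rw [← hfeq, hfdef] at hval
      have : N * √(3 - (1 + 2 * N) ^ 2) ≤ N * S := by linarith
      exact le_of_mul_le_mul_left this hNpos
    have hk0 : k = 0 := by
      have hsq : M ^ 2 = 3 / 4 - N ^ 2 := by
        rw [hMeq, Real.sq_sqrt hMp]
      have h4 : k ^ 2 + 2 * k * N ≤ 0 := by nlinarith
      have : k ^ 2 ≤ 0 := by linarith
      exact pow_eq_zero_iff (two_ne_zero) |>.mp (le_antisymm this (sq_nonneg k))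
    rw [← hNN]
    exact ⟨rfl, hk0, hMeq, rfl, rfl, hSeq⟩
  · exfalso
    push Not at hc
    have hs : √(3 / 4 - N ^ 2) ≤ √3 / 2 := by
      rw [show √3 / 2 = √(3 / 4) by
        rw [Real.sqrt_div (by norm_num), show (4 : ℝ) = 2 ^ 2 by norm_num,
          Real.sqrt_sq (by norm_num)]]
      exact Real.sqrt_le_sqrt (by nlinarith [sq_nonneg N])
    have hx : 2 * N * g1 ≤ √3 * g2 := by
      have := mul_le_mul_of_nonneg_right hs hg2
      linarith
    have := caseB hN0 hN2 hg1 hg2 hkM hg hSS hx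
    linarith

end Pool.Agent.Helper46.Vol4.PkJ47E
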